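import Pool.Agent.N398.HT.T3

/-!
# Independently even drawings whose adjacent edge pairs lie in closed discs

See `Pool/Agent/TH482/HT/Defs.lean` for the definitions of a drawing on an oriented surface and
`Pool/Agent/N398/HT/Disc.lean` for the definition of `AdjInDisc`.
The graph is a 14 x 12 grid with four further vertices `a, b, c, d`; the top end of column `i`
is joined to the `i`-th letter of the word `abcabcabcdabcd`.
-/

set_option autoImplicit false

namespace Pool.Agent.Results.MP_a2800b_co.AdjacentPairsInDiscs

open TH482.HT Pool.Agent.N398.HT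

/-- There is a connected graph `G` that has a drawing on the closed orientable surface of genus
`3` (the planarisation of the drawing is a cellular map of Euler characteristic `2 - 2 * 3`) in
which any two independent edges cross an even number of times and in which the arcs of any two
adjacent edges are contained in a closed disc of the surface, while `G` has no embedding in the
closed orientable surface of genus `3`. -/
theorem result : ∃ (V : Type) (_ : Fintype V) (G : SimpleGraph V), G.Connected ∧
    (∃ 𝒟 : Drawing G, 𝒟.toSurfaceMap.euler = 2 - 2 * 3 ∧ 𝒟.IndepEven ∧ AdjInDisc 𝒟) ∧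
    ¬ ∃ ℰ : Drawing G, ℰ.OnSurface 3 ∧ ℰ.IsEmbedding := by
  refine ⟨Vt 13 11 4, inferInstance, gridGraph 11 W14.w,
    gridGraph_connected W14.w W14.bcol W14.D.hb, ⟨tabDrawing T3.good, ?_, ?_, ?_⟩, ?_⟩
  · rw [exact_euler T3.good T3.idx T3.kV T3.kR T3.kF]
    decide
  · exact tab_even T3.good T3.chkE
  · exact adj_in_disc T3.good T3.idx T3.kV T3.kR T3.kF T3.kT T3.cert T3.kP
  · rintro ⟨ℰ, h1, h2⟩
    exact no_embedding W14.D (M := 11) (g := 3) (by norm_num) (by norm_num) W14.el W14.final ℰ h2
      h1

end Pool.Agent.Results.MP_a2800b_co.AdjacentPairsInDiscs
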